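import Pool.Agent.N625.GW.D
import Pool.Agent.N213.GF.G
import Pool.Agent.N625.DY.N
import Pool.Agent.N625.DY.F
import Pool.Agent.Run7.h927.CG.MonoC

/-!
# The Liouville function at the values of reducible polynomials with random constants given by walks, words and random fields

The constants are random integers with `k` digits in base `b`; the digits of each of them (1) are the labels of a walk
between two vertices of a graph, which may be infinite, for example of the Cayley graph of a group (then these are the
integers whose digits spell a given element of the group; such a set can contain as few as `N ^ ε` integers below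
`N = b ^ k`), or (2) form a correctly nested word over an alphabet of opening, closing and neutral digits, or (3) form a
Markov random field on an arbitrary graph of positions of bounded degree.

Method: the exponential sums of these three kinds of distributions are small at the frequencies with many good positions
(starting files `Pool.Agent.N625.GW`, `Pool.Agent.N625.DY` of helper625, `Pool.Agent.N213.GF` of helper213); the circle method for the correlations, in a generic form: `Pool.Agent.N625.DY.cls_chowla` (helper625). New
here: walks in graphs and nested words, and systems in which the constants follow laws of different kinds; the starting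
result `RandomFieldConstants` has random fields only.

Examples of random fields, proved in `Pool.Agent.N213.GF.E` and `Pool.Agent.N213.GF.F`: the uniform distribution on the
solutions of local constraints with flexible digits on a graph of positions with degrees at most `Δ`, with
`η = 1 / b ^ (Δ + 1)` (`unif_field`); in particular the integers whose nonzero digits form an independent set of the graph
(`indep_local`), and, for `b ≥ Δ + 2`, the integers whose digits are a proper colouring of the graph (`colour_local`).
-/

set_option autoImplicit false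

namespace Pool.Agent.Results.MP_892e4c_nt.DigitLawConstants

open Finset

/-- The digits `a < b` act on the set `X` of the vertices: an edge with the label `a` leads from `x` to `y` if
`δ x a = some y` (at most one edge with the label `a` starts at `x`). The number of the edges from `x` to `y` equals the
number of the edges from `y` to `x`, and at least two edges start at every vertex. The graph may be infinite. -/
structure Graph {X : Type} (b : ℕ) (δ : X → ℕ → Option X) : Prop where
  symm : ∀ x y : X, {a : ℕ | a < b ∧ δ x a = some y}.ncard = {a : ℕ | a < b ∧ δ y a = some x}.ncard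
  two : ∀ x : X, ∃ a a' : ℕ, a < a' ∧ a' < b ∧ (δ x a).isSome ∧ (δ x a').isSome

open Classical in
/-- The integers `v < b ^ k` whose `k` digits in base `b`, from the most significant to the least significant one (the
digit number `i`, `0 ≤ i < k`, from the left is `v / b ^ (k - 1 - i) % b`), are the labels of a walk from `x` to `y`. -/
noncomputable def walks {X : Type} (b : ℕ) (δ : X → ℕ → Option X) (k : ℕ) (x y : X) : Finset ℕ :=
  (range (b ^ k)).filter fun v =>
    ((List.range k).map fun i => v / b ^ (k - 1 - i) % b).foldl (fun s a => s.bind fun z => δ z a) (some x) = some y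

/-- `P` is a set of pairs of an opening digit and a closing digit which match each other, `E` is a set of neutral
digits; the digits are smaller than `b`, no digit plays two of the three roles, and there is at least one pair.
(An opening digit can match several closing digits, and conversely.) -/
structure Alphabet (b : ℕ) (P : Finset (ℕ × ℕ)) (E : Finset ℕ) : Prop where
  lt : ∀ p ∈ P, p.1 < b ∧ p.2 < b
  ne : ∀ p ∈ P, ∀ p' ∈ P, p.1 ≠ p'.2
  neutral : ∀ a ∈ E, a < b ∧ ∀ p ∈ P, a ≠ p.1 ∧ a ≠ p.2
  nonempty : P.Nonempty

/-- The correctly nested words: the empty word; a neutral digit followed by a correctly nested word; and `o u c w`,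
where `u` and `w` are correctly nested words and the opening digit `o` matches the closing digit `c`. -/
inductive Balanced (P : Finset (ℕ × ℕ)) (E : Finset ℕ) : List ℕ → Prop
  | nil : Balanced P E []
  | neutral (a : ℕ) (w : List ℕ) : a ∈ E → Balanced P E w → Balanced P E (a :: w)
  | pair (o c : ℕ) (u w : List ℕ) : (o, c) ∈ P → Balanced P E u → Balanced P E w → Balanced P E (o :: (u ++ c :: w))

open Classical in
/-- The integers `v < b ^ k` whose `k` digits in base `b`, from the most significant to the least significant one (the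
digit number `i`, `0 ≤ i < k`, from the left is `v / b ^ (k - 1 - i) % b`), form a correctly nested word. -/
noncomputable def brackets (b : ℕ) (P : Finset (ℕ × ℕ)) (E : Finset ℕ) (k : ℕ) : Finset ℕ :=
  (range (b ^ k)).filter fun v => Balanced P E ((List.range k).map fun i => v / b ^ (k - 1 - i) % b)

/-- The digit of `v` at the position `i` in base `b` (the position `0` is the least significant one). -/
def dig (b v i : ℕ) : ℕ := v / b ^ i % b

/-- The integer which has the digits of `v` at the positions in `S` and the digits of `w` at the other positions below `k`. -/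
def splice (b k : ℕ) (S : Finset ℕ) (v w : ℕ) : ℕ := ∑ i ∈ range k, (if i ∈ S then dig b v i else dig b w i) * b ^ i

/-- `v` and `w` have the same digits outside the set `S` of positions. -/
def Off (b : ℕ) (S : Finset ℕ) (v w : ℕ) : Prop := ∀ i, i ∉ S → dig b v i = dig b w i

open Classical in
/-- The closed neighbourhood of the position `i` in the graph `A` on the positions `0, …, k - 1`. -/
noncomputable def nb (k : ℕ) (A : ℕ → ℕ → Prop) (i : ℕ) : Finset ℕ := (range k).filter fun j => j = i ∨ A i j

open Classical in
/-- The total weight of the integers below `b ^ k` which have the same digits as `v` outside `S`. -/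
noncomputable def mass (b k : ℕ) (p : ℕ → ℝ) (S : Finset ℕ) (v : ℕ) : ℝ :=
  ∑ w ∈ (range (b ^ k)).filter (fun w => Off b S w v), p w

/-- The digits of a random integer `v < b ^ k` (with the probabilities `p v`) form a Markov random field on a graph `A` of
positions with degrees at most `Δ` (the Markov property: for every set `S` of positions and all `v`, `w` which have the same
digits at the positions outside `S` adjacent to `S`, the product `p v * p w` does not change if `v` and `w` exchange their
digits in `S`), and each digit is flexible: for every `v` with `p v ≠ 0` and every position `i`, there are `x` and `y` which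
have the same digits as `v` outside the closed neighbourhood of `i`, which differ from each other exactly at the position
`i`, and whose conditional probabilities, given the digits outside this neighbourhood, are at least `η`. -/
structure Field (b k Δ : ℕ) (η : ℝ) (A : ℕ → ℕ → Prop) (p : ℕ → ℝ) : Prop where
  symm : ∀ i j, A i j → A j i
  degree : ∀ i < k, (nb k A i).card ≤ Δ + 1
  nonneg : ∀ v, 0 ≤ p v
  sum : ∑ v ∈ range (b ^ k), p v = 1
  markov : ∀ S : Finset ℕ, ∀ v < b ^ k, ∀ w < b ^ k, (∀ i ∈ S, ∀ j < k, j ∉ S → A i j → dig b v j = dig b w j) →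
    p v * p w = p (splice b k S v w) * p (splice b k S w v)
  flexible : ∀ v < b ^ k, p v ≠ 0 → ∀ i < k, ∃ x < b ^ k, ∃ y < b ^ k, Off b (nb k A i) x v ∧ Off b {i} y x ∧
    dig b y i ≠ dig b x i ∧ η * mass b k p (nb k A i) v ≤ p x ∧ η * mass b k p (nb k A i) v ≤ p y

open Classical in
/-- The uniform distribution on the finite set `S`. -/
noncomputable def uniform (S : Finset ℕ) (v : ℕ) : ℝ := if v ∈ S then 1 / (S.card : ℝ) else 0

/-- The families of distributions of a random integer `v < b ^ k` which are considered here (`𝓕 k p` means that the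
distribution `p` belongs to the family).
* `walks`: the uniform distribution on the integers whose `k` digits are the labels of a walk from `x₀` to some vertex `y`,
  where the number of the closed walks of length `2n` at `x₀` is at most `ρ ^ (2n)` for all `n`, and the number of the walks
  of length `k` from `x₀` to `y` is at least `ρ ^ k / k ^ D` (all vertices `y` with this property are allowed);
* `words`: the uniform distribution on the integers whose `k` digits form a correctly nested word;
* `fields`: the digits form a Markov random field with flexible digits, on any graph of positions with degrees at most `Δ`. -/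
inductive Law (b : ℕ) : (ℕ → (ℕ → ℝ) → Prop) → Prop
  | walks {X : Type} (δ : X → ℕ → Option X) (x₀ : X) (ρ : ℝ) (D : ℕ) : Graph b δ → 0 < ρ →
      (∀ n : ℕ, ((walks b δ (2 * n) x₀ x₀).card : ℝ) ≤ ρ ^ (2 * n)) →
      Law b fun k p => ∃ y : X, ρ ^ k ≤ (k : ℝ) ^ D * (walks b δ k x₀ y).card ∧ p = uniform (walks b δ k x₀ y)
  | words (P : Finset (ℕ × ℕ)) (E : Finset ℕ) : Alphabet b P E →
      Law b fun k p => (brackets b P E k).Nonempty ∧ p = uniform (brackets b P E k)
  | fields (Δ : ℕ) (η : ℝ) : 2 ≤ b → 0 < η → Law b fun k p => ∃ A : ℕ → ℕ → Prop, Field b k Δ η A p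

/-- The Liouville function on the integers, `λ(-m) = λ(m)` and `λ(0) = 0`. -/
def lam (m : ℤ) : ℤ := if m = 0 then 0 else (-1) ^ ArithmeticFunction.cardFactors m.natAbs

/-- The product of the polynomial `f` and of the linear polynomials `α i X + h i`, `i ∈ I`. -/
noncomputable def prodPoly {s : ℕ} (f : Polynomial ℤ) (α : Fin s → ℕ) (h : Fin s → ℤ) (I : Finset (Fin s)) : Polynomial ℤ :=
  f * ∏ i ∈ I, (Polynomial.C (α i : ℤ) * Polynomial.X + Polynomial.C (h i))

/-- The sum of `θ(n) λ(F(n))`, where `F` is the product of `f` and of the `α i X + h i`, `i ∈ I`, over the `1 ≤ n ≤ x` for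
which all the `α i n + h i`, `i ∈ I`, are positive. -/
noncomputable def lamSum {s : ℕ} (θ : ℕ → ℂ) (f : Polynomial ℤ) (α : Fin s → ℕ) (h : Fin s → ℤ) (I : Finset (Fin s))
    (x : ℕ) : ℂ :=
  ∑ n ∈ (Icc 1 x).filter (fun n : ℕ => ∀ i ∈ I, 0 < (α i : ℤ) * n + h i), θ n * (lam ((prodPoly f α h I).eval (n : ℤ)) : ℂ)

/-- For all the vectors `h` of integers with `|h i - y i| ≤ k ^ W`, all nonempty sets `I` of indices, all `l`, and all `x`
with `α i * x ≤ B N` for `i ∈ I`: `|∑ n ≤ x, θ l n * λ(F(n))| ≤ N / k ^ U`, where `F` is the product of `f l` and of the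
`α i X + h i`, `i ∈ I`. -/
def Small (B U W N k : ℕ) {s L : ℕ} (f : Fin L → Polynomial ℤ) (θ : Fin L → ℕ → ℂ) (α : Fin s → ℕ) (y : Fin s → ℤ) : Prop :=
  ∀ h : Fin s → ℤ, (∀ i, |h i - y i| ≤ (k : ℤ) ^ W) → ∀ I : Finset (Fin s), I.Nonempty → ∀ l, ∀ x : ℕ,
    (∀ i ∈ I, α i * x ≤ B * N) → ‖lamSum (θ l) (f l) α h I x‖ ≤ N / (k : ℝ) ^ U

lemma bal_iff (P : Finset (ℕ × ℕ)) (E : Finset ℕ) (w : List ℕ) : Balanced P E w ↔ Pool.Agent.N625.DY.Balanced P E w := by
  constructor
  · intro h
    induction h with
    | nil => exact .nil
    | neutral a w h1 _ ih => exact .neutral a w h1 ih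
    | pair o c u w h1 _ _ ih1 ih2 => exact .pair o c u w h1 ih1 ih2
  · intro h
    induction h with
    | nil => exact .nil
    | neutral a w h1 _ ih => exact .neutral a w h1 ih
    | pair o c u w h1 _ _ ih1 ih2 => exact .pair o c u w h1 ih1 ih2

lemma brackets_eq (b : ℕ) (P : Finset (ℕ × ℕ)) (E : Finset ℕ) (k : ℕ) :
    brackets b P E k = Pool.Agent.N625.DY.brackets b P E k := by
  classical
  unfold brackets Pool.Agent.N625.DY.brackets Pool.Agent.N625.DY.word
  ext v
  rw [mem_filter, mem_filter, bal_iff]

lemma field_conv {b k Δ : ℕ} {η : ℝ} {A : ℕ → ℕ → Prop} {p : ℕ → ℝ} (h : Field b k Δ η A p) :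
    Pool.Agent.N213.GF.Field b k Δ η A p :=
  ⟨h.symm, h.degree, h.nonneg, h.sum, h.markov, h.flexible⟩

theorem cls_of {b : ℕ} {𝓕 : ℕ → (ℕ → ℝ) → Prop} (h : Law b 𝓕) (κ : ℤ) (hκ : κ ≠ 0) : Pool.Agent.N625.DY.Cls b κ 𝓕 := by
  rcases h with ⟨δ, x₀, ρ, D, hG, hρ, hR⟩ | ⟨P, E, hA⟩ | ⟨Δ, η, hb, hη⟩
  · refine Pool.Agent.Run7.h927.CG.cls_mono (Pool.Agent.N625.GW.w_cls (δ := δ) ⟨hG.symm, hG.two⟩ x₀ ρ hρ hR D κ hκ) ?_
    rintro k p ⟨y, h1, rfl⟩
    exact ⟨y, h1, rfl⟩
  · have hA' : Pool.Agent.N625.DY.Alphabet b P E := ⟨hA.lt, hA.ne, hA.neutral, hA.nonempty⟩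
    refine Pool.Agent.Run7.h927.CG.cls_mono (Pool.Agent.N625.DY.br_cls hA' κ hκ) ?_
    rintro k p ⟨h1, rfl⟩
    rw [brackets_eq] at h1 ⊢
    refine ⟨?_, rfl⟩
    by_contra h2
    rw [Pool.Agent.N625.DY.br_empty k h2] at h1
    exact Finset.not_nonempty_empty h1
  · refine Pool.Agent.Run7.h927.CG.cls_mono (Pool.Agent.N213.GF.gf_cls b Δ η hb hη κ hκ) ?_
    rintro k p ⟨A, hF⟩
    exact ⟨A, field_conv hF⟩

lemma lam_mul (m n : ℤ) : lam (m * n) = lam m * lam n := by
  unfold lam
  by_cases hm : m = 0
  · simp [hm]
  · by_cases hn : n = 0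
    · simp [hn]
    · rw [if_neg (mul_ne_zero hm hn), if_neg hm, if_neg hn, Int.natAbs_mul,
        ArithmeticFunction.cardFactors_mul (Int.natAbs_ne_zero.2 hm) (Int.natAbs_ne_zero.2 hn), pow_add]

lemma lam_one : lam 1 = 1 := by
  unfold lam
  simp

lemma lam_prod {ι : Type} (I : Finset ι) (g : ι → ℤ) : lam (∏ i ∈ I, g i) = ∏ i ∈ I, lam (g i) := by
  classical
  induction I using Finset.induction_on with
  | empty => simp [lam_one]
  | insert a I ha ih => rw [prod_insert ha, prod_insert ha, lam_mul, ih]

lemma lam_pos (m : ℤ) (hm : 0 < m) : Pool.Agent.R459.Shift.lam m = lam m := by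
  unfold Pool.Agent.R459.Shift.lam lam
  rw [if_pos (by omega), if_neg (by omega)]
  have : m.toNat = m.natAbs := by omega
  rw [this]

lemma norm_lam_le (m : ℤ) : ‖(lam m : ℂ)‖ ≤ 1 := by
  unfold lam
  split_ifs
  · simp
  · push_cast
    rw [norm_pow]
    simp

lemma sum_eq {s : ℕ} (θ : ℕ → ℂ) (f : Polynomial ℤ) (α : Fin s → ℕ) (h : Fin s → ℤ) (I : Finset (Fin s)) (x : ℕ) :
    lamSum θ f α h I x = ∑ n ∈ Icc 1 x, (θ n * (lam (f.eval (n : ℤ)) : ℂ)) *
      ∏ i ∈ I, (Pool.Agent.R459.Shift.lam (α i * n + h i) : ℂ) := by
  unfold lamSum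
  rw [sum_filter]
  apply sum_congr rfl
  intro n _
  split_ifs with hn
  · have e1 : (prodPoly f α h I).eval (n : ℤ) = f.eval (n : ℤ) * ∏ i ∈ I, ((α i : ℤ) * n + h i) := by
      unfold prodPoly
      rw [Polynomial.eval_mul, Polynomial.eval_prod]
      congr 1
      apply prod_congr rfl
      intro i _
      simp
    rw [e1, lam_mul, lam_prod]
    push_cast
    rw [mul_assoc]
    congr 2
    apply prod_congr rfl
    intro i hi
    rw [lam_pos _ (hn i hi)]
  · push Not at hn
    obtain ⟨i, hi, hle⟩ := hn
    have e1 : Pool.Agent.R459.Shift.lam (α i * n + h i) = 0 := by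
      unfold Pool.Agent.R459.Shift.lam
      rw [if_neg (by omega)]
    have e2 : ∏ i ∈ I, (Pool.Agent.R459.Shift.lam (α i * n + h i) : ℂ) = 0 := by
      apply prod_eq_zero hi
      rw [e1]
      simp
    rw [e2, mul_zero]

open Classical in
/-- Let `b`, `s`, families `𝓕 i`, `i < s`, of distributions in `Law b` (digits which label walks in a graph; correctly nested
words; Markov random fields; the families may be of different kinds), `κ i ≠ 0`, `B`, `T`, `W` and `U` be fixed. Let `k` be
large, let `c i` be integers with `|c i| ≤ B b ^ k`, let `α i ≥ 1` be arbitrary, let `f l` be at most `k ^ T` arbitrary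
polynomials with integer coefficients (of any degree), and let `θ l` be arbitrary functions bounded by `1` (e.g. `1`, or
additive characters, or the indicator functions of residue classes). Let `v i < b ^ k` be independent random integers whose
distributions `p i` belong to the families `𝓕 i`. Then, with probability at least `1 - 1 / k ^ U`: for all the vectors `h` of
integers with `|h i - (c i + κ i v i)| ≤ k ^ W`, all nonempty sets `I` of indices and all `l`,
`|∑ n ≤ x, θ l n * λ(F(n))| ≤ b ^ k / k ^ U` for all `x ≤ B b ^ k / max (α i, i ∈ I)`, where `F` is the product of `f l` and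
of the `α i X + h i`, `i ∈ I` (the sum is over the `n` for which these linear factors are positive). -/
theorem result (s b : ℕ) (𝓕 : Fin s → ℕ → (ℕ → ℝ) → Prop) (hF : ∀ i, Law b (𝓕 i)) (κ : Fin s → ℤ)
    (hκ : ∀ i, κ i ≠ 0) (B T W U : ℕ) :
    ∃ k₀ : ℕ, ∀ k, k₀ ≤ k → ∀ c : Fin s → ℤ, (∀ i, |c i| ≤ B * (b : ℤ) ^ k) →
      ∀ L : ℕ, (L : ℝ) ≤ (k : ℝ) ^ T → ∀ (α : Fin s → ℕ) (f : Fin L → Polynomial ℤ) (θ : Fin L → ℕ → ℂ),
        (∀ i, 1 ≤ α i) → (∀ l n, ‖θ l n‖ ≤ 1) →
        ∀ p : Fin s → ℕ → ℝ, (∀ i, 𝓕 i k (p i)) →
        ∑ v ∈ Fintype.piFinset (fun _ : Fin s => range (b ^ k)),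
          (if Small B U W (b ^ k) k f θ α (fun i => c i + κ i * (v i : ℕ)) then 0 else ∏ i, p i (v i)) ≤ 1 / (k : ℝ) ^ U := by
  obtain ⟨k₀, h0⟩ := Pool.Agent.N625.DY.cls_chowla s b κ 𝓕 (fun i => cls_of (hF i) (κ i) (hκ i)) B T W U
  refine ⟨k₀, fun k hk c hc L hL α f θ hα hθ p hp => ?_⟩
  have key := h0 k hk p hp c hc L hL α (fun l n => θ l n * (lam ((f l).eval (n : ℤ)) : ℂ)) hα
    (fun l n => by
      rw [norm_mul]
      exact mul_le_one₀ (hθ l n) (norm_nonneg _) (norm_lam_le _))
  refine le_trans (le_of_eq ?_) key
  apply sum_congr rfl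
  intro v _
  have e : Small B U W (b ^ k) k f θ α (fun i => c i + κ i * (v i : ℕ)) ↔
      Pool.Agent.N625.DY.NearT W k (Pool.Agent.N625.DY.SmallT B U (b ^ k) k α
        (fun l n => θ l n * (lam ((f l).eval (n : ℤ)) : ℂ))) (fun i => c i + κ i * (v i : ℕ)) := by
    unfold Small Pool.Agent.N625.DY.NearT Pool.Agent.N625.DY.SmallT
    simp only [sum_eq]
  simp only [e]

end Pool.Agent.Results.MP_892e4c_nt.DigitLawConstants
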