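import Pool.Agent.Run7.h385.CW.Fin

/-!
Chowla's conjecture for the products `Φ = ∏ f_l(x + h)` of shifts of random polynomials, in sums of
polylogarithmic length, and the sign patterns of the Liouville function along random polynomials.

Systems `f_l = F_l + c_l0 + c_l1 x + … + c_l(d-1) x^(d-1)`, `l = 1, …, g`, with `d ≥ 2` random
coefficients each, in a box of size `X`, and arbitrary `F_l`.  For all systems but a proportion
`(log X)^(-A)`, the Liouville function at the values of EVERY product of shifts of the `f_l`, with at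
most `d - 1` shifts of each `f_l`, cancels in all sums of length `x ≥ (log X)^B`, `x` up to an
arbitrary power of `log X`, also with weights (for instance in arithmetic progressions); and all
sign patterns occur with the expected frequency: for 100 percent of the polynomials `f` of degree
`d` the vectors `(λ(f(n+1)), …, λ(f(n+d)))`, `n ≤ x`, are equidistributed in `{1, -1}^d` (take
`d + 1` random coefficients).

Method.  The `2 k ≤ 2 d - 1` values `f(n + h_i)`, `f(n' + h_i)` of a polynomial with `d` free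
coefficients are dependent linear forms of complexity one: shifts of `f` by multiples of two
polynomials, each vanishing at half of the other points, the large sieve and Davenport's theorem
for the Liouville function bound their correlation; then the second moment over the polynomials.
-/

set_option autoImplicit false

namespace Pool.Agent.Results.MP_892e4c_nt.ShiftsAlongRandomPolynomials

open Finset
open scoped Polynomial

/-- the Liouville function on the integers: `λ(-m) = λ(m)` and `λ(0) = 0` -/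
noncomputable def lam (m : ℤ) : ℝ := if m = 0 then 0 else (-1) ^ ArithmeticFunction.cardFactors m.natAbs

/-- the polynomials `F_l + c_l0 + c_l1 x + … + c_l(d-1) x^(d-1)` -/
noncomputable def poly {g d : ℕ} (F : Fin g → ℤ[X]) (c : Fin g → Fin d → ℤ) (l : Fin g) : ℤ[X] :=
  F l + ∑ j : Fin d, Polynomial.C (c l j) * Polynomial.X ^ (j : ℕ)

/-- the box of the coefficients `a_lj ≤ c_lj < a_lj + Y_lj` -/
noncomputable def box {g d : ℕ} (a : Fin g → Fin d → ℤ) (Y : Fin g → Fin d → ℕ) : Finset (Fin g → Fin d → ℤ) :=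
  Fintype.piFinset (fun l => Fintype.piFinset (fun j => Ico (a l j) (a l j + Y l j)))

/-- the product of the polynomials `f_l(x + h)`, `l ≤ g`, `h ∈ T_l` -/
noncomputable def Phi {g : ℕ} (f : Fin g → ℤ[X]) (T : Fin g → Finset ℕ) : ℤ[X] :=
  ∏ l, ∏ h ∈ T l, (f l).comp (Polynomial.X + Polynomial.C (h : ℤ))

/-- `|F_l(n)| ≤ X (log X)^V` for `n ≤ (log X)^C`, and the box has its corner in `[-X, X]^(gd)` and its sides
in `[X / (log X)^V, X]` -/
def Sizes {g d : ℕ} (C V X : ℕ) (F : Fin g → ℤ[X]) (a : Fin g → Fin d → ℤ) (Y : Fin g → Fin d → ℕ) : Prop :=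
  (∀ l, ∀ n : ℕ, (n : ℝ) ≤ Real.log X ^ C → |(((F l).eval (n : ℤ) : ℤ) : ℝ)| ≤ X * Real.log X ^ V) ∧
  (∀ l j, |(a l j : ℝ)| ≤ X ∧ (X : ℝ) / Real.log X ^ V ≤ Y l j ∧ (Y l j : ℝ) ≤ X)

/-- For all `d ≥ 2`, `g`, `C1`, `K`, `A` there is `B` such that for all `C`, `V` and all large `X`, all `F_l` and
boxes as in `Sizes` and all weights `w_s`, `s < N ≤ (log X)^K`, bounded by `1`: for all `c` in the box
but a proportion `(log X)^(-A)`, for ALL sets `T_l` of at most `d - 1` shifts `h ≤ (log X)^C1`, all `s` and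
ALL `x` with `(log X)^B ≤ x ≤ (log X)^C - (log X)^C1`:
(1) if the `T_l` are not all empty, the sum of `w_s(n) λ(Φ(n))` over `n ≤ x` is at most `x / (log X)^A`,
where `Φ = ∏_l ∏_{h ∈ T_l} f_l(x + h)`;
(2) for all signs `ε_lh`, the sum of `w_s(n)` over the `n ≤ x` with `λ(f_l(n + h)) = ε_lh` for all `l` and
all `h ∈ T_l` differs from `2^(-#T)` times the sum over all `n ≤ x` by at most `x / (log X)^A`. -/
theorem result (d g C1 K A : ℕ) (hd : 2 ≤ d) : ∃ B : ℕ, ∀ C V : ℕ, ∃ X0 : ℕ, ∀ X : ℕ, X0 ≤ X →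
    ∀ (F : Fin g → ℤ[X]) (a : Fin g → Fin d → ℤ) (Y : Fin g → Fin d → ℕ), Sizes C V X F a Y →
    ∀ N : ℕ, (N : ℝ) ≤ Real.log X ^ K → ∀ w : ℕ → ℕ → ℝ, (∀ s n, |w s n| ≤ 1) →
    ∃ Ex ⊆ box a Y, (#Ex : ℝ) ≤ #(box a Y) / Real.log X ^ A ∧
      ∀ c ∈ box a Y, c ∉ Ex → ∀ T : Fin g → Finset ℕ, (∀ l, #(T l) < d) →
        (∀ l, ∀ h ∈ T l, (h : ℝ) ≤ Real.log X ^ C1) → ∀ s < N,
        ∀ x : ℕ, Real.log X ^ B ≤ x → (x : ℝ) + Real.log X ^ C1 ≤ Real.log X ^ C →
        ((∃ l, (T l).Nonempty) →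
          |∑ n ∈ Icc 1 x, w s n * lam ((Phi (poly F c) T).eval (n : ℤ))| ≤ x / Real.log X ^ A) ∧
        ∀ ε : Fin g → ℕ → ℝ, (∀ l h, ε l h = 1 ∨ ε l h = -1) →
          |∑ n ∈ (Icc 1 x).filter (fun n : ℕ => ∀ l, ∀ h ∈ T l, lam ((poly F c l).eval ((n + h : ℕ) : ℤ)) = ε l h), w s n -
            (1 / 2) ^ (∑ l, #(T l)) * ∑ n ∈ Icc 1 x, w s n| ≤ x / Real.log X ^ A :=
  Run7.h385.CW.Fin.main d g C1 K A hd

end Pool.Agent.Results.MP_892e4c_nt.ShiftsAlongRandomPolynomials
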