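import Pool.Agent.Run7.h710.TR.Cnt
import Pool.Agent.N625.DY.N

/-!
# The Liouville function at the values of polynomials: constant terms written by transducers

The constant terms of the linear factors are `c_i + κ_i T_i(v_i)`, for almost all vectors of integers `v_i < a_i ^ k`, where
the transducer `T_i` reads the digits of `v_i` in base `a_i` and writes the digits of `T_i(v_i)` in base `b` (definitions in
`Pool.Agent.Run7.h710.TR.Defs`).

Method: if two words of `L` digits lead from the same state to the same state and different words are written, then the two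
parts of the exponential sum over the integers `T(v)` which belong to these words cancel in part at the places where the
frequency has a digit which is not extremal. From the starting files: the passage from such exponential sums to correlations
(`Pool.Agent.W93.AU`, `Pool.Agent.R459.LawNear`) and Davenport's theorem (`Pool.Agent.H807R2.Dav`); in a generic form:
`Pool.Agent.N625.DY.N` (helper625).

Examples: the bitwise conjunction or disjunction of `v` and `m v` (the carries are the states); the integer whose digit `i`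
is `f(x_i, x_{i+1}, …, x_{i+r})`, where `x_i` are the digits of `v` and `f` is not constant (one-sided cellular automata).
-/

set_option autoImplicit false

namespace Pool.Agent.Results.MP_892e4c_nt.TransducerConstants

open Finset Pool.Agent.Run7.h710.TR

/-- The Liouville function on the integers, `λ(-m) = λ(m)` and `λ(0) = 0`. -/
def lam (m : ℤ) : ℤ := if m = 0 then 0 else (-1) ^ ArithmeticFunction.cardFactors m.natAbs

/-- The product of the polynomial `f` and of the linear polynomials `α i X + h i`, `i ∈ I`. -/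
noncomputable def prodPoly {s : ℕ} (f : Polynomial ℤ) (α : Fin s → ℕ) (h : Fin s → ℤ) (I : Finset (Fin s)) : Polynomial ℤ :=
  f * ∏ i ∈ I, (Polynomial.C (α i : ℤ) * Polynomial.X + Polynomial.C (h i))

/-- The sum of `θ(n) λ(F(n))`, where `F` is the product of `f` and of the `α i X + h i`, `i ∈ I`, over the `1 ≤ n ≤ x` for
which all the `α i n + h i`, `i ∈ I`, are positive. -/
noncomputable def lamSum {s : ℕ} (θ : ℕ → ℂ) (f : Polynomial ℤ) (α : Fin s → ℕ) (h : Fin s → ℤ) (I : Finset (Fin s))
    (x : ℕ) : ℂ :=
  ∑ n ∈ (Icc 1 x).filter (fun n : ℕ => ∀ i ∈ I, 0 < (α i : ℤ) * n + h i), θ n * (lam ((prodPoly f α h I).eval (n : ℤ)) : ℂ)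

/-- For all the vectors `h` of integers with `|h i - y i| ≤ k ^ W`, all nonempty sets `I` of indices, all `l`, and all `x`
with `α i * x ≤ B N` for `i ∈ I`: `|∑ n ≤ x, θ l n * λ(F(n))| ≤ N / k ^ U`, where `F` is the product of `f l` and of the
`α i X + h i`, `i ∈ I`. -/
def Small (B U W N k : ℕ) {s L : ℕ} (f : Fin L → Polynomial ℤ) (θ : Fin L → ℕ → ℂ) (α : Fin s → ℕ) (y : Fin s → ℤ) : Prop :=
  ∀ h : Fin s → ℤ, (∀ i, |h i - y i| ≤ (k : ℤ) ^ W) → ∀ I : Finset (Fin s), I.Nonempty → ∀ l, ∀ x : ℕ,
    (∀ i ∈ I, α i * x ≤ B * N) → ‖lamSum (θ l) (f l) α h I x‖ ≤ N / (k : ℝ) ^ U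

lemma lam_mul (m n : ℤ) : lam (m * n) = lam m * lam n := by
  unfold lam
  by_cases hm : m = 0
  · simp [hm]
  · by_cases hn : n = 0
    · simp [hn]
    · rw [if_neg (mul_ne_zero hm hn), if_neg hm, if_neg hn, Int.natAbs_mul,
        ArithmeticFunction.cardFactors_mul (Int.natAbs_ne_zero.2 hm) (Int.natAbs_ne_zero.2 hn), pow_add]

lemma lam_one : lam 1 = 1 := by
  unfold lam
  simp

lemma lam_prod {ι : Type} (I : Finset ι) (g : ι → ℤ) : lam (∏ i ∈ I, g i) = ∏ i ∈ I, lam (g i) := by
  classical
  induction I using Finset.induction_on with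
  | empty => simp [lam_one]
  | insert a I ha ih => rw [prod_insert ha, prod_insert ha, lam_mul, ih]

lemma lam_pos (m : ℤ) (hm : 0 < m) : Pool.Agent.R459.Shift.lam m = lam m := by
  unfold Pool.Agent.R459.Shift.lam lam
  rw [if_pos (by omega), if_neg (by omega)]
  have : m.toNat = m.natAbs := by omega
  rw [this]

lemma norm_lam_le (m : ℤ) : ‖(lam m : ℂ)‖ ≤ 1 := by
  unfold lam
  split_ifs
  · simp
  · push_cast
    rw [norm_pow]
    simp

lemma sum_eq {s : ℕ} (θ : ℕ → ℂ) (f : Polynomial ℤ) (α : Fin s → ℕ) (h : Fin s → ℤ) (I : Finset (Fin s)) (x : ℕ) :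
    lamSum θ f α h I x = ∑ n ∈ Icc 1 x, (θ n * (lam (f.eval (n : ℤ)) : ℂ)) *
      ∏ i ∈ I, (Pool.Agent.R459.Shift.lam (α i * n + h i) : ℂ) := by
  unfold lamSum
  rw [sum_filter]
  apply sum_congr rfl
  intro n _
  split_ifs with hn
  · have e1 : (prodPoly f α h I).eval (n : ℤ) = f.eval (n : ℤ) * ∏ i ∈ I, ((α i : ℤ) * n + h i) := by
      unfold prodPoly
      rw [Polynomial.eval_mul, Polynomial.eval_prod]
      congr 1
      apply prod_congr rfl
      intro i _
      simp
    rw [e1, lam_mul, lam_prod]
    push_cast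
    rw [mul_assoc]
    congr 2
    apply prod_congr rfl
    intro i hi
    rw [lam_pos _ (hn i hi)]
  · push Not at hn
    obtain ⟨i, hi, hle⟩ := hn
    have e1 : Pool.Agent.R459.Shift.lam (α i * n + h i) = 0 := by
      unfold Pool.Agent.R459.Shift.lam
      rw [if_neg (by omega)]
    have e2 : ∏ i ∈ I, (Pool.Agent.R459.Shift.lam (α i * n + h i) : ℂ) = 0 := by
      apply prod_eq_zero hi
      rw [e1]
      simp
    rw [e2, mul_zero]

open Classical in
/-- Let `s`, `b ≥ 2`, `a i`, `m i ≥ 1` and `κ i ≠ 0` for `i < s`, `B`, `T`, `W` and `U` be fixed, and let `k` be large. Let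
arbitrary transducers be given, the `i`-th one of which reads digits `< a i` and writes digits `< b` (with finitely or
infinitely many states), such that from every state two words of `m i` digits lead to the same state, while different words
are written; let them begin in arbitrary states `z i` and read from the left or from the right (`k` must be large in terms of
the fixed numbers only). Let `c i` be integers with `|c i| ≤ B b ^ k`, let `α i ≥ 1` be arbitrary, let `f l` be at most
`k ^ T` arbitrary polynomials with integer coefficients (of any degree), and let `θ l` be arbitrary functions bounded by `1`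
(e.g. `1`, or additive characters, or the indicator functions of residue classes). Then all the vectors of integers
`v i < a i ^ k`, with the exception of a proportion of at most `1 / k ^ U` of them, have the following property, where `y i`
is `c i + κ i v'_i` and `v'_i` is the integer which is written when `v i` is read: for all the vectors `h` of integers
with `|h i - y i| ≤ k ^ W`, all nonempty sets `I` of indices and all `l`,
`|∑ n ≤ x, θ l n * λ(F(n))| ≤ b ^ k / k ^ U` for all `x ≤ B b ^ k / max (α i, i ∈ I)`, where `F` is the product of `f l` and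
of the `α i X + h i`, `i ∈ I` (the sum is over the `n` for which these linear factors are positive). -/
theorem result (s b : ℕ) (hb : 2 ≤ b) (a m : Fin s → ℕ) (hm : ∀ i, 1 ≤ m i) (κ : Fin s → ℤ) (hκ : ∀ i, κ i ≠ 0)
    (B T W U : ℕ) :
    ∃ k₀ : ℕ, ∀ k, k₀ ≤ k → ∀ (S : Fin s → Type) (δ : ∀ i, S i → ℕ → S i) (o : ∀ i, S i → ℕ → ℕ),
      (∀ i, Transducer (a i) b (m i) (δ i) (o i)) → ∀ (left : Fin s → Bool) (z : ∀ i, S i),
      ∀ c : Fin s → ℤ, (∀ i, |c i| ≤ B * (b : ℤ) ^ k) →
      ∀ L : ℕ, (L : ℝ) ≤ (k : ℝ) ^ T → ∀ (α : Fin s → ℕ) (f : Fin L → Polynomial ℤ) (θ : Fin L → ℕ → ℂ),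
        (∀ i, 1 ≤ α i) → (∀ l n, ‖θ l n‖ ≤ 1) →
        (((Fintype.piFinset fun i : Fin s => range (a i ^ k)).filter fun v =>
          ¬ Small B U W (b ^ k) k f θ α (fun i => c i + κ i * (image (a i) b (δ i) (o i) (left i) k (z i) (v i) : ℕ))).card : ℝ) ≤
          (∏ i, (a i : ℝ)) ^ k / (k : ℝ) ^ U := by
  obtain ⟨k₀, h0⟩ := Pool.Agent.N625.DY.cls_chowla s b κ (fun i => Cl (a i) b (m i))
    (fun i => (tr_clsV (a i) b (m i) hb (hm i) (κ i) (hκ i)).toCls) B T W U
  refine ⟨k₀, fun k hk S δ o hT left z c hc L hL α f θ hα hθ => ?_⟩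
  have key := h0 k hk (fun i => law (a i) b (δ i) (o i) (left i) k (z i)) (fun i => ⟨S i, δ i, o i, left i, z i, hT i, rfl⟩)
    c hc L hL α (fun l n => θ l n * (lam ((f l).eval (n : ℤ)) : ℂ)) hα
    (fun l n => by
      rw [norm_mul]
      exact mul_le_one₀ (hθ l n) (norm_nonneg _) (norm_lam_le _))
  refine exceptions_pi b k hb a m S δ o hT left z (fun v => Small B U W (b ^ k) k f θ α (fun i => c i + κ i * (v i : ℕ))) U ?_
  refine le_trans (le_of_eq ?_) key
  apply sum_congr rfl
  intro v _
  have e : Small B U W (b ^ k) k f θ α (fun i => c i + κ i * (v i : ℕ)) ↔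
      Pool.Agent.N625.DY.NearT W k (Pool.Agent.N625.DY.SmallT B U (b ^ k) k α
        (fun l n => θ l n * (lam ((f l).eval (n : ℤ)) : ℂ))) (fun i => c i + κ i * (v i : ℕ)) := by
    unfold Small Pool.Agent.N625.DY.NearT Pool.Agent.N625.DY.SmallT
    simp only [sum_eq]
  simp only [e]

end Pool.Agent.Results.MP_892e4c_nt.TransducerConstants
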