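import Pool.Agent.Run7.h844.RP.ChV

/-!
# The Liouville function at products of linear factors whose constant terms are near values of generalised polynomials at
primes

Nothing is used besides Mathlib in the statement: `Fintype.piFinset` is the set of the vectors `p` with
`X i < p i ≤ 2 X i`, `p i` prime.

Method: exponential sums over primes with the phase of a generalised polynomial: derivative bounds uniform in the
coefficients, van der Corput differencing of all orders, bilinear sums, Vaughan's identity (after `Pool.Agent.H895R3.NK`,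
`Pool.Agent.H373R2.T7`); a discrete Fejér kernel for the passage from real numbers to their integer parts, and a kernel
estimate for the concentration on short intervals which needs only the large frequencies (library
`Pool.Agent.Run7.h844.RP`, after `Pool.Agent.N384.MQ`, `Pool.Agent.N193.PS`). The passage from such exponential
sums to correlations is from the starting files (`Pool.Agent.W93.AU`, `Pool.Agent.R459.LawNear`), in a generic form:
`Pool.Agent.N625.DY` (`cls_chowla`); the elementary lemmas on `prodPoly` are those of helper213 in `RandomFieldConstants`.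
-/

set_option autoImplicit false

namespace Pool.Agent.Results.MP_892e4c_nt.ValuesAtPrimes

open Finset

/-- The generalised polynomial `∑ a x * t ^ x`, `x ∈ F`, with real exponents and coefficients. -/
noncomputable def genPoly (F : Finset ℝ) (a : ℝ → ℝ) (t : ℝ) : ℝ := ∑ x ∈ F, a x * t ^ x

/-- `c` is the largest exponent; it is positive and not an integer, and its coefficient is not zero. -/
def Leading (F : Finset ℝ) (a : ℝ → ℝ) (c : ℝ) : Prop :=
  c ∈ F ∧ (∀ x ∈ F, x ≤ c) ∧ 0 < c ∧ (∀ m : ℕ, c ≠ m) ∧ a c ≠ 0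

/-- The Liouville function on the integers, `λ(-m) = λ(m)` and `λ(0) = 0`. -/
def lam (m : ℤ) : ℤ := if m = 0 then 0 else (-1) ^ ArithmeticFunction.cardFactors m.natAbs

/-- The product of the polynomial `g` and of the linear polynomials `α i X + h i`, `i ∈ I`. -/
noncomputable def prodPoly {s : ℕ} (g : Polynomial ℤ) (α : Fin s → ℕ) (h : Fin s → ℤ) (I : Finset (Fin s)) : Polynomial ℤ :=
  g * ∏ i ∈ I, (Polynomial.C (α i : ℤ) * Polynomial.X + Polynomial.C (h i))

/-- The sum of `θ(m) λ(F(m))`, where `F` is the product of `g` and of the `α i X + h i`, `i ∈ I`, over the `1 ≤ m ≤ x` for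
which all the `α i m + h i`, `i ∈ I`, are positive. -/
noncomputable def lamSum {s : ℕ} (θ : ℕ → ℂ) (g : Polynomial ℤ) (α : Fin s → ℕ) (h : Fin s → ℤ) (I : Finset (Fin s))
    (x : ℕ) : ℂ :=
  ∑ m ∈ (Icc 1 x).filter (fun m : ℕ => ∀ i ∈ I, 0 < (α i : ℤ) * m + h i), θ m * (lam ((prodPoly g α h I).eval (m : ℤ)) : ℂ)

/-- For ALL the vectors `h` of integers with `|h i - y i| ≤ R`, all nonempty sets `I` of indices, all `l`, and all `x` with
`α i * x ≤ Y` for `i ∈ I`: `|∑ m ≤ x, θ l m * λ(F(m))| ≤ E`, where `F` is the product of `g l` and of the `α i X + h i`,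
`i ∈ I`. -/
def Near {s L : ℕ} (g : Fin L → Polynomial ℤ) (θ : Fin L → ℕ → ℂ) (α : Fin s → ℕ) (Y E R : ℝ) (y : Fin s → ℝ) : Prop :=
  ∀ h : Fin s → ℤ, (∀ i, |(h i : ℝ) - y i| ≤ R) → ∀ I : Finset (Fin s), I.Nonempty → ∀ l, ∀ x : ℕ,
    (∀ i ∈ I, (α i : ℝ) * x ≤ Y) → ‖lamSum (θ l) (g l) α h I x‖ ≤ E

lemma lam_mul (m n : ℤ) : lam (m * n) = lam m * lam n := by
  unfold lam
  by_cases hm : m = 0
  · simp [hm]
  · by_cases hn : n = 0
    · simp [hn]
    · rw [if_neg (mul_ne_zero hm hn), if_neg hm, if_neg hn, Int.natAbs_mul,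
        ArithmeticFunction.cardFactors_mul (Int.natAbs_ne_zero.2 hm) (Int.natAbs_ne_zero.2 hn), pow_add]

lemma lam_one : lam 1 = 1 := by
  unfold lam
  simp

lemma lam_prod {ι : Type} (I : Finset ι) (g : ι → ℤ) : lam (∏ i ∈ I, g i) = ∏ i ∈ I, lam (g i) := by
  classical
  induction I using Finset.induction_on with
  | empty => simp [lam_one]
  | insert a I ha ih => rw [prod_insert ha, prod_insert ha, lam_mul, ih]

lemma lam_pos (m : ℤ) (hm : 0 < m) : Pool.Agent.R459.Shift.lam m = lam m := by
  unfold Pool.Agent.R459.Shift.lam lam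
  rw [if_pos (by omega), if_neg (by omega)]
  have : m.toNat = m.natAbs := by omega
  rw [this]

lemma norm_lam_le (m : ℤ) : ‖(lam m : ℂ)‖ ≤ 1 := by
  unfold lam
  split_ifs
  · simp
  · push_cast
    rw [norm_pow]
    simp

lemma sum_eq {s : ℕ} (θ : ℕ → ℂ) (g : Polynomial ℤ) (α : Fin s → ℕ) (h : Fin s → ℤ) (I : Finset (Fin s)) (x : ℕ) :
    lamSum θ g α h I x = ∑ n ∈ Icc 1 x, (θ n * (lam (g.eval (n : ℤ)) : ℂ)) *
      ∏ i ∈ I, (Pool.Agent.R459.Shift.lam (α i * n + h i) : ℂ) := by
  unfold lamSum
  rw [sum_filter]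
  apply sum_congr rfl
  intro n _
  split_ifs with hn
  · have e1 : (prodPoly g α h I).eval (n : ℤ) = g.eval (n : ℤ) * ∏ i ∈ I, ((α i : ℤ) * n + h i) := by
      unfold prodPoly
      rw [Polynomial.eval_mul, Polynomial.eval_prod]
      congr 1
      apply prod_congr rfl
      intro i _
      simp
    rw [e1, lam_mul, lam_prod]
    push_cast
    rw [mul_assoc]
    congr 2
    apply prod_congr rfl
    intro i hi
    rw [lam_pos _ (hn i hi)]
  · push Not at hn
    obtain ⟨i, hi, hle⟩ := hn
    have e1 : Pool.Agent.R459.Shift.lam (α i * n + h i) = 0 := by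
      unfold Pool.Agent.R459.Shift.lam
      rw [if_neg (by omega)]
    have e2 : ∏ i ∈ I, (Pool.Agent.R459.Shift.lam (α i * n + h i) : ℂ) = 0 := by
      apply prod_eq_zero hi
      rw [e1]
      simp
    rw [e2, mul_zero]

open Classical in
/-- Let `s ≥ 0` and let `f i`, `i < s`, be generalised polynomials whose largest exponents `c i` are positive and not
integers, and let `B`, `A`, `W` and `U` be fixed. Let `M` be large and let the sizes `X i` satisfy
`X i ^ (c i) ≤ M ≤ X i ^ (c i) log ^ A M`. Let `z i` be any real numbers with `|z i| ≤ M`, let `α i ≥ 1` be arbitrary, let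
`g l` be at most `log ^ A M` arbitrary polynomials with integer coefficients (of any degree), and let `θ l` be arbitrary
functions bounded by `1` (e.g. `1`, or additive characters, or the indicator functions of residue classes). Then all the
vectors `p` of primes `X i < p i ≤ 2 X i`, with at most `(∏ X i) / log ^ U M` exceptions, have the following property: for
ALL the vectors `h` of integers with `|h i - (f i (p i) + z i)| ≤ log ^ W M`, all nonempty sets `I` of indices and all `l`,
`|∑ m ≤ x, θ l m * λ(F(m))| ≤ M / log ^ U M` for all `x` with `α i x ≤ B M` (`i ∈ I`), where `F` is the product of `g l` and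
of the `α i X + h i`, `i ∈ I` (the sum is over the `m` for which these linear factors are positive). -/
theorem result (s : ℕ) (F : Fin s → Finset ℝ) (a : Fin s → ℝ → ℝ) (c : Fin s → ℝ) (hF : ∀ i, Leading (F i) (a i) (c i))
    (B A W U : ℕ) :
    ∃ M₀ : ℕ, ∀ M : ℕ, M₀ ≤ M → ∀ X : Fin s → ℕ,
      (∀ i, (X i : ℝ) ^ (c i) ≤ M ∧ (M : ℝ) ≤ (X i : ℝ) ^ (c i) * Real.log M ^ A) →
      ∀ z : Fin s → ℝ, (∀ i, |z i| ≤ M) →
      ∀ L : ℕ, (L : ℝ) ≤ Real.log M ^ A → ∀ (α : Fin s → ℕ) (g : Fin L → Polynomial ℤ) (θ : Fin L → ℕ → ℂ),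
      (∀ i, 1 ≤ α i) → (∀ l n, ‖θ l n‖ ≤ 1) →
      (((Fintype.piFinset fun i => (Ioc (X i) (2 * X i)).filter Nat.Prime).filter fun p =>
        ¬ Near g θ α (B * M) (M / Real.log M ^ U) (Real.log M ^ W)
          (fun i => genPoly (F i) (a i) (p i) + z i)).card : ℝ) ≤ (∏ i, (X i : ℝ)) / Real.log M ^ U := by
  obtain ⟨M₀, h0⟩ := Pool.Agent.Run7.h844.RP.ch_primes s F c (fun i => (hF i).1) (fun i => (hF i).2.2.2.1)
    (fun i => (hF i).2.2.1) (fun i => (hF i).2.1) a (fun i => (hF i).2.2.2.2) B A W U
  refine ⟨M₀, fun M hM X hX z hz L hL α g θ hα hθ => ?_⟩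
  refine le_trans ?_ (h0 M hM X hX z hz L hL α
    (fun l n => θ l n * (lam ((g l).eval (n : ℤ)) : ℂ)) hα (fun l n => ?_))
  · apply Nat.cast_le.2
    apply card_le_card
    intro p hp
    rw [mem_filter] at hp ⊢
    refine ⟨hp.1, fun hcon => hp.2 fun h hh I hI l x hx => ?_⟩
    rw [sum_eq]
    exact hcon h hh I hI l x hx
  · rw [norm_mul]
    exact mul_le_one₀ (hθ l n) (norm_nonneg _) (norm_lam_le _)

end Pool.Agent.Results.MP_892e4c_nt.ValuesAtPrimes
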